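import Mathlib

set_option autoImplicit false
open MeasureTheory FourierTransform SchwartzMap
open scoped ENNReal NNReal

namespace Pool.Agent.Results.MP_8ec070_an.DisproofQ2

/-- The plane. -/
abbrev Plane : Type := EuclideanSpace ℝ (Fin 2)

/-- The disc multiplier `S^0`: multiply the Fourier transform by the indicator of the unit disc. -/
noncomputable def discMultiplier (f : 𝓢(Plane, ℂ)) : Plane → ℂ :=
  𝓕⁻ ((Metric.ball (0 : Plane) 1).indicator (𝓕 (f : Plane → ℂ)))

/-- The ray maximal function `M_0` of a nonnegative weight: the supremum over unit vectors `ω` and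
`r > 0` of `(2 / r ^ 2) * ∫_0^r φ (x - s ω) s ds`. -/
noncomputable def rayMax (φ : Plane → ℝ) (x : Plane) : ℝ≥0∞ :=
  ⨆ (ω : Plane) (_ : ‖ω‖ = 1) (r : ℝ) (_ : 0 < r),
    ENNReal.ofReal (2 / r ^ 2) * ∫⁻ s in Set.Ioo 0 r, ENNReal.ofReal (φ (x - s • ω) * s)

/-! ### Integrals over the plane -/

lemma mp_plane : MeasurePreserving (fun x : Plane => ((x 0, x 1) : ℝ × ℝ)) := by
  have h1 := (EuclideanSpace.volume_preserving_symm_measurableEquiv_toLp (Fin 2))
  have h2 := volume_preserving_finTwoArrow ℝ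
  exact h2.comp h1

lemma me_plane : MeasurableEmbedding (fun x : Plane => ((x 0, x 1) : ℝ × ℝ)) := by
  exact ((MeasurableEquiv.toLp 2 (Fin 2 → ℝ)).symm.trans
    (MeasurableEquiv.finTwoArrow (α := ℝ))).measurableEmbedding

lemma lint_plane (F G : ℝ → ℝ≥0∞) (hF : Measurable F) (hG : Measurable G) :
    ∫⁻ x : Plane, F (x 0) * G (x 1) = (∫⁻ a, F a) * ∫⁻ b, G b := by
  have h1 := mp_plane.lintegral_comp_emb me_plane (fun p : ℝ × ℝ => F p.1 * G p.2)
  rw [h1]
  exact lintegral_prod_mul hF.aemeasurable hG.aemeasurable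

lemma int_plane (F G : ℝ → ℂ) :
    ∫ x : Plane, F (x 0) * G (x 1) = (∫ a, F a) * ∫ b, G b := by
  have h1 := mp_plane.integral_comp me_plane (fun p : ℝ × ℝ => F p.1 * G p.2)
  rw [h1]
  exact integral_prod_mul F G

/-! ### The ray maximal function of a strip -/

/-- The weight: indicator of the strip `0 ≤ x_0 ≤ 1`. -/
noncomputable def strip (x : Plane) : ℝ := (Set.Icc (0 : ℝ) 1).indicator (fun _ => 1) (x 0)

lemma strip_nonneg (x : Plane) : 0 ≤ strip x := by
  unfold strip
  by_cases h : x 0 ∈ Set.Icc (0 : ℝ) 1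
  · rw [Set.indicator_of_mem h]; norm_num
  · rw [Set.indicator_of_notMem h]

lemma strip_le_one (x : Plane) : strip x ≤ 1 := by
  unfold strip
  by_cases h : x 0 ∈ Set.Icc (0 : ℝ) 1
  · rw [Set.indicator_of_mem h]
  · rw [Set.indicator_of_notMem h]; norm_num

lemma strip_meas : Measurable strip := by
  unfold strip
  have : Measurable (fun x : Plane => x 0) := by fun_prop
  exact ((measurable_const.indicator measurableSet_Icc).comp this)

lemma lint_s (r : ℝ) (hr : 0 < r) : ∫⁻ s in Set.Ioo 0 r, ENNReal.ofReal s = ENNReal.ofReal (r ^ 2 / 2) := by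
  rw [← ofReal_integral_eq_lintegral_ofReal]
  · rw [← integral_Ioc_eq_integral_Ioo, ← intervalIntegral.integral_of_le hr.le, integral_id]
    congr 1
    ring
  · have : IntervalIntegrable (fun s : ℝ => s) volume 0 r := continuous_id.intervalIntegrable _ _
    rw [intervalIntegrable_iff_integrableOn_Ioo_of_le hr.le] at this
    exact this
  · filter_upwards [ae_restrict_mem measurableSet_Ioo] with s hs
    exact hs.1.le

lemma rayMax_strip (x : Plane) (hx : x 0 ≠ 0) : rayMax strip x ≤ ENNReal.ofReal (4 / |x 0|) := by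
  unfold rayMax
  refine iSup_le fun ω => iSup_le fun hω => iSup_le fun r => iSup_le fun hr => ?_
  have hxa : 0 < |x 0| := abs_pos.mpr hx
  -- trivial bound
  have htriv : ENNReal.ofReal (2 / r ^ 2) *
      ∫⁻ s in Set.Ioo 0 r, ENNReal.ofReal (strip (x - s • ω) * s) ≤ 1 := by
    calc ENNReal.ofReal (2 / r ^ 2) * ∫⁻ s in Set.Ioo 0 r, ENNReal.ofReal (strip (x - s • ω) * s)
        ≤ ENNReal.ofReal (2 / r ^ 2) * ∫⁻ s in Set.Ioo 0 r, ENNReal.ofReal s := by
          apply mul_le_mul_right
          apply setLIntegral_mono' measurableSet_Ioo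
          intro s hs
          apply ENNReal.ofReal_le_ofReal
          have := strip_le_one (x - s • ω)
          nlinarith [hs.1]
      _ = 1 := by
          rw [lint_s r hr, ← ENNReal.ofReal_mul (by positivity)]
          have : 2 / r ^ 2 * (r ^ 2 / 2) = 1 := by field_simp
          rw [this, ENNReal.ofReal_one]
  by_cases hcase : |x 0| ≤ 4
  · refine htriv.trans ?_
    rw [← ENNReal.ofReal_one]
    apply ENNReal.ofReal_le_ofReal
    rw [le_div_iff₀ hxa]
    linarith
  · push Not at hcase
    -- the set of s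
    set c : ℝ := ω 0 with hc
    have hcoord : ∀ s : ℝ, (x - s • ω) 0 = x 0 - s * c := by
      intro s
      simp [hc]
    by_cases hne : ∃ s ∈ Set.Ioo (0 : ℝ) r, x 0 - s * c ∈ Set.Icc (0 : ℝ) 1
    · obtain ⟨s0, hs0, hs1⟩ := hne
      have hrc : |x 0| / 2 ≤ r * |c| := by
        have h1 : |x 0| ≤ |x 0 - s0 * c| + |s0 * c| := by
          have := abs_add_le (x 0 - s0 * c) (s0 * c)
          simpa using this
        have h2 : |x 0 - s0 * c| ≤ 1 := by
          rw [abs_le]
          constructor <;> linarith [hs1.1, hs1.2]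
        have h3 : |s0 * c| ≤ r * |c| := by
          rw [abs_mul, abs_of_pos hs0.1]
          have := hs0.2.le
          gcongr
        linarith
      have hc0 : 0 < |c| := by
        by_contra h
        have : |c| = 0 := le_antisymm (not_lt.mp h) (abs_nonneg _)
        rw [this] at hrc
        linarith
      have hc0' : c ≠ 0 := abs_pos.mp hc0
      have hlen : ∫⁻ s in Set.Ioo 0 r, ENNReal.ofReal (strip (x - s • ω) * s) ≤
          ENNReal.ofReal (r / |c|) := by
        calc ∫⁻ s in Set.Ioo 0 r, ENNReal.ofReal (strip (x - s • ω) * s)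
            ≤ ∫⁻ s in Set.Ioo 0 r, (Set.uIcc ((x 0 - 1) / c) (x 0 / c)).indicator
                (fun _ => ENNReal.ofReal r) s := by
              apply setLIntegral_mono' measurableSet_Ioo
              intro s hs
              by_cases h : x 0 - s * c ∈ Set.Icc (0 : ℝ) 1
              · have h2 : s ∈ Set.uIcc ((x 0 - 1) / c) (x 0 / c) := by
                  obtain ⟨h3, h4⟩ := h
                  rw [Set.mem_uIcc]
                  rcases lt_or_gt_of_ne hc0' with hneg | hpos
                  · right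
                    constructor
                    · rw [div_le_iff_of_neg hneg]; linarith
                    · rw [le_div_iff_of_neg hneg]; linarith
                  · left
                    constructor
                    · rw [div_le_iff₀ hpos]; linarith
                    · rw [le_div_iff₀ hpos]; linarith
                rw [Set.indicator_of_mem h2]
                apply ENNReal.ofReal_le_ofReal
                have h5 := strip_le_one (x - s • ω)
                have h6 := strip_nonneg (x - s • ω)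
                nlinarith [hs.1, hs.2]
              · have h2 : strip (x - s • ω) = 0 := by
                  unfold strip
                  rw [Set.indicator_of_notMem]
                  rw [hcoord]
                  exact h
                rw [h2]
                simp
          _ ≤ ∫⁻ s, (Set.uIcc ((x 0 - 1) / c) (x 0 / c)).indicator
                (fun _ => ENNReal.ofReal r) s := setLIntegral_le_lintegral _ _
          _ = ENNReal.ofReal r * volume (Set.uIcc ((x 0 - 1) / c) (x 0 / c)) := by
              rw [lintegral_indicator_const measurableSet_uIcc]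
          _ = ENNReal.ofReal (r / |c|) := by
              rw [Real.volume_interval, ← ENNReal.ofReal_mul hr.le]
              congr 1
              have : x 0 / c - (x 0 - 1) / c = 1 / c := by ring
              rw [this, abs_div, abs_one]
              ring
      calc ENNReal.ofReal (2 / r ^ 2) * ∫⁻ s in Set.Ioo 0 r, ENNReal.ofReal (strip (x - s • ω) * s)
          ≤ ENNReal.ofReal (2 / r ^ 2) * ENNReal.ofReal (r / |c|) := by gcongr
        _ = ENNReal.ofReal (2 / (r * |c|)) := by
            rw [← ENNReal.ofReal_mul (by positivity)]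
            congr 1
            field_simp
        _ ≤ ENNReal.ofReal (4 / |x 0|) := by
            apply ENNReal.ofReal_le_ofReal
            rw [div_le_div_iff₀ (by positivity) hxa]
            linarith
    · push Not at hne
      have hz : ∫⁻ s in Set.Ioo 0 r, ENNReal.ofReal (strip (x - s • ω) * s) = 0 := by
        rw [setLIntegral_congr_fun (g := fun _ => 0) measurableSet_Ioo]
        · simp
        · intro s hs
          have h2 : strip (x - s • ω) = 0 := by
            unfold strip
            rw [Set.indicator_of_notMem]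
            rw [hcoord]
            exact hne s hs
          simp only
          rw [h2]
          simp
      rw [hz, mul_zero]
      exact bot_le

/-! ### One-dimensional analysis -/

/-- the character `exp (2 pi i t z)` -/
noncomputable def ch (t z : ℝ) : ℂ := Complex.exp (((2 * Real.pi * (t * z) : ℝ) : ℂ) * Complex.I)

lemma ch_norm (t z : ℝ) : ‖ch t z‖ = 1 := by
  rw [ch, Complex.norm_exp_ofReal_mul_I]

lemma ch_add (s t z : ℝ) : ch (s + t) z = ch s z * ch t z := by
  rw [ch, ch, ch, ← Complex.exp_add]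
  congr 1
  push_cast
  ring

lemma ch_cont (z : ℝ) : Continuous (fun t => ch t z) := by
  unfold ch
  fun_prop

lemma ch_sub_one (t z : ℝ) : ‖ch t z - 1‖ ≤ 2 * Real.pi * (|t| * |z|) := by
  have h5 : ch t z - 1 = Complex.exp (Complex.I * ((2 * Real.pi * (t * z) : ℝ) : ℂ)) - 1 := by
    rw [ch, mul_comm]
  rw [h5]
  refine (Real.norm_exp_I_mul_ofReal_sub_one_le).trans (le_of_eq ?_)
  rw [Real.norm_eq_abs, abs_mul, abs_mul t, abs_of_pos (by positivity : 0 < 2 * Real.pi)]

/-- a bump function supported in `(1/16, 1/8)` -/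
noncomputable def bet : ContDiffBump (3 / 32 : ℝ) := ⟨1 / 64, 1 / 32, by norm_num, by norm_num⟩

lemma bet_support (t : ℝ) (h : bet t ≠ 0) : 1 / 16 < t ∧ t < 1 / 8 := by
  have h1 : t ∈ Function.support bet := h
  rw [bet.support_eq] at h1
  rw [Metric.mem_ball, Real.dist_eq] at h1
  have h2 : bet.rOut = 1 / 32 := rfl
  rw [h2, abs_lt] at h1
  constructor <;> linarith [h1.1, h1.2]

lemma bet_smooth : ContDiff ℝ (⊤ : ℕ∞) (fun t => bet t) := bet.contDiff

lemma bet_cs : HasCompactSupport (fun t => bet t) := bet.hasCompactSupport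

lemma bet_int : Integrable (fun t => bet t) :=
  bet_smooth.continuous.integrable_of_hasCompactSupport bet_cs

lemma bet_zero (t : ℝ) (h : t ≤ 0) : bet t = 0 := by
  by_contra hne
  have := (bet_support t hne).1
  linarith

/-- mass of the bump -/
noncomputable def mm : ℝ := ∫ t, bet t

lemma mm_pos : 0 < mm := bet.integral_pos

/-- the odd function -/
noncomputable def th (t : ℝ) : ℝ := bet t - bet (-t)

/-- its negative half -/
noncomputable def thm (t : ℝ) : ℝ := - bet (-t)

lemma th_smooth : ContDiff ℝ (⊤ : ℕ∞) th := by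
  unfold th
  exact bet_smooth.sub (bet_smooth.comp contDiff_neg)

lemma thm_smooth : ContDiff ℝ (⊤ : ℕ∞) thm := by
  unfold thm
  exact (bet_smooth.comp contDiff_neg).neg

lemma th_zero (t : ℝ) (h : 1 / 8 ≤ |t|) : th t = 0 := by
  unfold th
  have h1 : bet t = 0 := by
    by_contra hne
    have := bet_support t hne
    rw [abs_of_pos (by linarith)] at h
    linarith
  have h2 : bet (-t) = 0 := by
    by_contra hne
    have := bet_support (-t) hne
    rw [abs_of_neg (by linarith)] at h
    linarith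
  rw [h1, h2, sub_zero]

lemma th_cs : HasCompactSupport th := by
  apply HasCompactSupport.intro (isCompact_Icc (a := -(1 / 8 : ℝ)) (b := 1 / 8))
  intro t ht
  apply th_zero
  by_contra h
  push Not at h
  rw [abs_lt] at h
  exact ht ⟨h.1.le, h.2.le⟩

lemma th_int : Integrable th := th_smooth.continuous.integrable_of_hasCompactSupport th_cs

lemma thm_int : Integrable thm := (bet_int.comp_neg).neg

lemma mul_ch_int (q : ℝ → ℂ) (hq : Integrable q) (z : ℝ) : Integrable (fun t => q t * ch t z) := by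
  refine hq.mul_bdd (c := 1) (ch_cont z).aestronglyMeasurable ?_
  exact Filter.Eventually.of_forall (fun x => (ch_norm x z).le)

/-- Fourier transform of `th` -/
noncomputable def Th (z : ℝ) : ℂ := ∫ t, (th t : ℂ) * ch t z

/-- Fourier transform of `thm` -/
noncomputable def Thm (z : ℝ) : ℂ := ∫ t, (thm t : ℂ) * ch t z

lemma th_integral : ∫ t, th t = 0 := by
  unfold th
  rw [integral_sub bet_int bet_int.comp_neg, integral_neg_eq_self (fun t => bet t), sub_self]

lemma Th_lin : ∃ C : ℝ, 0 ≤ C ∧ ∀ z, ‖Th z‖ ≤ C * |z| := by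
  refine ⟨∫ t, |th t| * (2 * Real.pi * |t|), integral_nonneg (fun t => by positivity), fun z => ?_⟩
  have h0 : ∫ t, ((th t : ℝ) : ℂ) = 0 := by
    rw [integral_complex_ofReal, th_integral]; simp
  have h1 : Th z = ∫ t, (th t : ℂ) * (ch t z - 1) := by
    have : ∫ t, (th t : ℂ) * (ch t z - 1) = ∫ t, ((th t : ℂ) * ch t z - (th t : ℂ)) := by
      congr 1; ext t; ring
    have hI : Integrable (fun t => ((th t : ℝ) : ℂ)) := th_int.ofReal
    rw [this, integral_sub (mul_ch_int _ hI z) hI, h0, sub_zero, Th]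
  rw [h1, ← integral_mul_const]
  refine norm_integral_le_of_norm_le ?_ (Filter.Eventually.of_forall fun t => ?_)
  · apply Integrable.mul_const
    have hc : Continuous (fun t => |th t| * (2 * Real.pi * |t|)) := by
      have := th_smooth.continuous
      fun_prop
    apply hc.integrable_of_hasCompactSupport
    apply HasCompactSupport.mul_right
    exact th_cs.abs
  · rw [norm_mul, Complex.norm_real, Real.norm_eq_abs]
    have := ch_sub_one t z
    calc |th t| * ‖ch t z - 1‖ ≤ |th t| * (2 * Real.pi * (|t| * |z|)) := by gcongr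
      _ = |th t| * (2 * Real.pi * |t|) * |z| := by ring

lemma fourierInv_real (q : ℝ → ℂ) (z : ℝ) : (𝓕⁻ q) z = ∫ t, q t * ch t z := by
  rw [Real.fourierInv_eq']
  congr 1
  ext t
  rw [smul_eq_mul, mul_comm, ch]
  congr 4
  simp
  ring

lemma Th_decay : ∃ C : ℝ, 0 ≤ C ∧ ∀ z, |z| ^ 2 * ‖Th z‖ ≤ C := by
  have h1 : HasCompactSupport (fun t => (th t : ℂ)) := th_cs.comp_left (g := Complex.ofReal) rfl
  have h2 : ContDiff ℝ (⊤ : ℕ∞) (fun t => (th t : ℂ)) := Complex.ofRealCLM.contDiff.comp th_smooth
  obtain ⟨C, hC, h⟩ := (𝓕⁻ (h1.toSchwartzMap h2)).decay 2 0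
  refine ⟨C, hC.le, fun z => ?_⟩
  have h3 := h z
  rw [norm_iteratedFDeriv_zero, Real.norm_eq_abs, SchwartzMap.fourierInv_coe, fourierInv_real] at h3
  exact h3

lemma Th_bound : ∃ C : ℝ, 0 ≤ C ∧ ∀ z, ‖Th z‖ ≤ C * (|z| / ((1 + |z|) * (2 + |z|))) := by
  obtain ⟨C1, hC1, h1⟩ := Th_lin
  obtain ⟨C2, hC2, h2⟩ := Th_decay
  refine ⟨6 * (C1 + C2), by positivity, fun z => ?_⟩
  have hz := abs_nonneg z
  rw [mul_div_assoc', le_div_iff₀ (by positivity)]
  rcases le_or_gt |z| 1 with hz1 | hz1
  · have h3 := h1 z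
    have h4 : (1 + |z|) * (2 + |z|) ≤ 6 := by nlinarith
    calc ‖Th z‖ * ((1 + |z|) * (2 + |z|)) ≤ (C1 * |z|) * 6 := by gcongr
      _ ≤ 6 * (C1 + C2) * |z| := by nlinarith
  · have h3 := h2 z
    have h4 : (1 + |z|) * (2 + |z|) ≤ 6 * |z| ^ 2 := by nlinarith
    calc ‖Th z‖ * ((1 + |z|) * (2 + |z|)) ≤ ‖Th z‖ * (6 * |z| ^ 2) := by gcongr
      _ = 6 * (|z| ^ 2 * ‖Th z‖) := by ring
      _ ≤ 6 * C2 := by gcongr
      _ ≤ 6 * (C1 + C2) * |z| := by nlinarith

lemma Thm_re (z : ℝ) (hz : |z| ≤ 1) : (Thm z).re ≤ -(mm / 2) := by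
  have h1 : Thm z = ∫ t, ((-bet t : ℝ) : ℂ) * ch (-t) z := by
    rw [Thm, ← integral_neg_eq_self]
    congr 1
    ext t
    unfold thm
    rw [neg_neg]
  have hint : Integrable (fun t => ((-bet t : ℝ) : ℂ) * ch (-t) z) := by
    have := (mul_ch_int _ thm_int.ofReal z).comp_neg
    refine this.congr (Filter.Eventually.of_forall fun t => ?_)
    simp [thm]
  have h2 : (Thm z).re = ∫ t, (((-bet t : ℝ) : ℂ) * ch (-t) z).re := by
    rw [h1]
    exact (integral_re hint).symm
  rw [h2]
  have h3 : -(mm / 2) = ∫ t, -(bet t / 2) := by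
    rw [integral_neg, integral_div, mm]
  rw [h3]
  apply integral_mono hint.re (bet_int.div_const 2).neg
  intro t
  show (((-bet t : ℝ) : ℂ) * ch (-t) z).re ≤ -(bet t / 2)
  rw [Complex.re_ofReal_mul]
  have h4 : (ch (-t) z).re = Real.cos (2 * Real.pi * (-t * z)) := by
    rw [ch, Complex.exp_ofReal_mul_I_re]
  rw [h4]
  by_cases hb : bet t = 0
  · rw [hb]; simp
  · have hb1 := bet_support t hb
    have hb0 : 0 ≤ bet t := bet.nonneg
    have hcos : 1 / 2 ≤ Real.cos (2 * Real.pi * (-t * z)) := by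
      rw [← Real.cos_pi_div_three, ← Real.cos_abs (2 * Real.pi * (-t * z))]
      apply Real.cos_le_cos_of_nonneg_of_le_pi (abs_nonneg _)
      · linarith [Real.pi_pos]
      · rw [abs_mul (2 * Real.pi), abs_mul (-t), abs_neg, abs_of_pos (by positivity : 0 < 2 * Real.pi),
          abs_of_pos (by linarith : 0 < t)]
        have : t * |z| ≤ 1 / 8 := by nlinarith [abs_nonneg z]
        nlinarith [Real.pi_pos]
    nlinarith

/-- the multi-scale function -/
noncomputable def kn (q : ℝ → ℝ) (n : ℕ) (t : ℝ) : ℝ :=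
  ∑ j ∈ Finset.range n, (2 : ℝ) ^ j * q ((2 : ℝ) ^ j * t)

lemma scale_int (q : ℝ → ℝ) (j : ℕ) (x : ℝ) :
    ∫ t, (((2 : ℝ) ^ j * q ((2 : ℝ) ^ j * t) : ℝ) : ℂ) * ch t x =
      ∫ t, (q t : ℂ) * ch t (x / 2 ^ j) := by
  have h := Measure.integral_comp_mul_left (fun s => (q s : ℂ) * ch s (x / 2 ^ j)) ((2 : ℝ) ^ j)
  have h1 : ∀ t : ℝ, (((2 : ℝ) ^ j * q ((2 : ℝ) ^ j * t) : ℝ) : ℂ) * ch t x =
      ((2 : ℝ) ^ j : ℝ) • ((q ((2 : ℝ) ^ j * t) : ℂ) * ch ((2 : ℝ) ^ j * t) (x / 2 ^ j)) := by
    intro t
    have h2 : ch ((2 : ℝ) ^ j * t) (x / 2 ^ j) = ch t x := by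
      unfold ch
      congr 4
      field_simp
    rw [h2, Complex.real_smul]
    push_cast
    ring
  simp_rw [h1]
  rw [integral_smul, h, smul_smul]
  have : (2 : ℝ) ^ j * |((2 : ℝ) ^ j)⁻¹| = 1 := by
    rw [abs_of_pos (by positivity)]
    field_simp
  rw [this, one_smul]

lemma kn_fourier (q : ℝ → ℝ) (hq : Integrable q) (n : ℕ) (x : ℝ) :
    ∫ t, (kn q n t : ℂ) * ch t x = ∑ j ∈ Finset.range n, ∫ t, (q t : ℂ) * ch t (x / 2 ^ j) := by
  have h1 : ∀ t, (kn q n t : ℂ) * ch t x =
      ∑ j ∈ Finset.range n, (((2 : ℝ) ^ j * q ((2 : ℝ) ^ j * t) : ℝ) : ℂ) * ch t x := by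
    intro t
    rw [kn, Complex.ofReal_sum, Finset.sum_mul]
  simp_rw [h1]
  rw [integral_finsetSum]
  · apply Finset.sum_congr rfl
    intro j _
    exact scale_int q j x
  · intro j _
    apply mul_ch_int
    apply Integrable.ofReal
    apply Integrable.const_mul
    exact hq.comp_mul_left' (by positivity)

/-- the shifted integral -/
lemma shift_int (q : ℝ → ℂ) (x : ℝ) :
    ∫ a, q (a - 1) * ch a x = ch 1 x * ∫ t, q t * ch t x := by
  rw [← integral_const_mul]
  have h := integral_sub_right_eq_self (μ := volume) (fun t => ch 1 x * (q t * ch t x)) (1 : ℝ)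
  rw [← h]
  congr 1
  ext a
  have : ch a x = ch 1 x * ch (a - 1) x := by
    rw [← ch_add]
    congr 1
    ring
  rw [this]
  ring

lemma telesc (n : ℕ) (y : ℝ) :
    ∑ j ∈ Finset.range n, (|y / 2 ^ j| / ((1 + |y / 2 ^ j|) * (2 + |y / 2 ^ j|))) ≤ 1 := by
  have h1 : ∀ j : ℕ, |y / 2 ^ j| / ((1 + |y / 2 ^ j|) * (2 + |y / 2 ^ j|)) =
      |y / 2 ^ j| / (1 + |y / 2 ^ j|) - |y / 2 ^ (j + 1)| / (1 + |y / 2 ^ (j + 1)|) := by
    intro j
    have h2 : |y / 2 ^ (j + 1)| = |y / 2 ^ j| / 2 := by
      rw [pow_succ, ← div_div, abs_div, abs_of_pos (by norm_num : (0 : ℝ) < 2)]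
    rw [h2]
    have h3 := abs_nonneg (y / 2 ^ j)
    field_simp
    ring
  rw [Finset.sum_congr rfl (fun j _ => h1 j), Finset.sum_range_sub']
  have h4 : |y / 2 ^ 0| / (1 + |y / 2 ^ 0|) ≤ 1 := by
    rw [div_le_one (by positivity)]
    linarith
  have h5 : 0 ≤ |y / 2 ^ n| / (1 + |y / 2 ^ n|) := by positivity
  linarith


/-! ### The two-dimensional functions -/

lemma inner_plane (v x : Plane) : inner ℝ v x = v 0 * x 0 + v 1 * x 1 := by
  rw [PiLp.inner_apply, Fin.sum_univ_two]
  simp
  ring

lemma fourierInv_plane (F G : ℝ → ℂ) (x : Plane) :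
    (𝓕⁻ (fun v : Plane => F (v 0) * G (v 1))) x =
      (∫ a, F a * ch a (x 0)) * ∫ b, G b * ch b (x 1) := by
  rw [Real.fourierInv_eq', ← int_plane]
  congr 1
  ext v
  rw [inner_plane, smul_eq_mul]
  have : Complex.exp (((2 * Real.pi * (v 0 * x 0 + v 1 * x 1) : ℝ) : ℂ) * Complex.I) =
      ch (v 0) (x 0) * ch (v 1) (x 1) := by
    rw [ch, ch, ← Complex.exp_add]
    congr 1
    push_cast
    ring
  rw [this]
  ring

lemma kn_smooth (q : ℝ → ℝ) (hq : ContDiff ℝ (⊤ : ℕ∞) q) (n : ℕ) :
    ContDiff ℝ (⊤ : ℕ∞) (kn q n) := by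
  unfold kn
  apply ContDiff.sum
  intro j _
  exact contDiff_const.mul (hq.comp (contDiff_const.mul contDiff_id))

lemma kn_th_zero (n : ℕ) (t : ℝ) (h : 1 / 8 ≤ |t|) : kn th n t = 0 := by
  unfold kn
  apply Finset.sum_eq_zero
  intro j _
  rw [th_zero, mul_zero]
  rw [abs_mul, abs_of_pos (by positivity : (0 : ℝ) < 2 ^ j)]
  have : (1 : ℝ) ≤ 2 ^ j := one_le_pow₀ (by norm_num)
  nlinarith [abs_nonneg t]

/-- The symbol `K` -/
noncomputable def KK (n : ℕ) (c : ℝ → ℝ) (v : Plane) : ℂ := (kn th n (v 0 - 1) : ℂ) * (c (v 1) : ℂ)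

lemma KK_smooth (n : ℕ) (c : ℝ → ℝ) (hc : ContDiff ℝ (⊤ : ℕ∞) c) :
    ContDiff ℝ (⊤ : ℕ∞) (KK n c) := by
  unfold KK
  have h0 : ContDiff ℝ (⊤ : ℕ∞) (fun v : Plane => v 0) := by fun_prop
  have h1 : ContDiff ℝ (⊤ : ℕ∞) (fun v : Plane => v 1) := by fun_prop
  have h2 : ContDiff ℝ (⊤ : ℕ∞) (fun v : Plane => (kn th n (v 0 - 1) : ℂ)) :=
    Complex.ofRealCLM.contDiff.comp ((kn_smooth th th_smooth n).comp (h0.sub contDiff_const))
  have h3 : ContDiff ℝ (⊤ : ℕ∞) (fun v : Plane => (c (v 1) : ℂ)) :=
    Complex.ofRealCLM.contDiff.comp (hc.comp h1)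
  exact h2.mul h3

lemma norm_sq_plane (v : Plane) : ‖v‖ ^ 2 = (v 0) ^ 2 + (v 1) ^ 2 := by
  rw [EuclideanSpace.norm_sq_eq, Fin.sum_univ_two]
  simp

lemma KK_cs (n : ℕ) (c : ℝ → ℝ) (hc : ∀ b, 1 ≤ |b| → c b = 0) : HasCompactSupport (KK n c) := by
  apply HasCompactSupport.intro (isCompact_closedBall (0 : Plane) 3)
  intro v hv
  rw [mem_closedBall_zero_iff, not_le] at hv
  unfold KK
  by_cases h0 : 1 / 8 ≤ |v 0 - 1|
  · rw [kn_th_zero n _ h0]; simp
  · by_cases h1 : 1 ≤ |v 1|
    · rw [hc _ h1]; simp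
    · exfalso
      push Not at h0 h1
      rw [abs_lt] at h0 h1
      have h2 := norm_sq_plane v
      have h3 : ‖v‖ ^ 2 ≤ 9 := by
        rw [h2]
        nlinarith [h0.1, h0.2, h1.1, h1.2]
      nlinarith [norm_nonneg v]

/-- On the support, the disc is the half plane. -/
lemma disc_KK (n : ℕ) (c : ℝ → ℝ) (δ : ℝ) (hδ0 : 0 < δ) (hδ : δ ^ 2 ≤ 1 / (16 * 2 ^ n))
    (hc : ∀ b, δ ≤ |b| → c b = 0) (v : Plane) :
    (Metric.ball (0 : Plane) 1).indicator (KK n c) v =
      (kn thm n (v 0 - 1) : ℂ) * (c (v 1) : ℂ) := by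
  by_cases hb : δ ≤ |v 1|
  · have h1 : KK n c v = 0 := by unfold KK; rw [hc _ hb]; simp
    rw [hc _ hb]
    by_cases hm : v ∈ Metric.ball (0 : Plane) 1
    · rw [Set.indicator_of_mem hm, h1]; simp
    · rw [Set.indicator_of_notMem hm]; simp
  push Not at hb
  have hvsq := norm_sq_plane v
  have hbsq : (v 1) ^ 2 < δ ^ 2 := by
    rw [← sq_abs]
    nlinarith [abs_nonneg (v 1)]
  rcases le_or_gt 0 (v 0 - 1) with ht | ht
  · have hm : v ∉ Metric.ball (0 : Plane) 1 := by
      rw [mem_ball_zero_iff, not_lt]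
      by_contra h
      push Not at h
      nlinarith [norm_nonneg v, sq_nonneg (v 1)]
    rw [Set.indicator_of_notMem hm]
    have h0 : kn thm n (v 0 - 1) = 0 := by
      unfold kn
      apply Finset.sum_eq_zero
      intro j _
      unfold thm
      rw [bet_zero]
      · simp
      · have : (0 : ℝ) ≤ 2 ^ j * (v 0 - 1) := by positivity
        linarith
    rw [h0]; simp
  · have heq : kn th n (v 0 - 1) = kn thm n (v 0 - 1) := by
      unfold kn
      apply Finset.sum_congr rfl
      intro j _
      unfold th thm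
      rw [bet_zero ((2 : ℝ) ^ j * (v 0 - 1))]
      · ring
      · have : (0 : ℝ) < 2 ^ j := by positivity
        nlinarith
    by_cases hz : kn thm n (v 0 - 1) = 0
    · rw [hz]
      have h1 : KK n c v = 0 := by unfold KK; rw [heq, hz]; simp
      by_cases hm : v ∈ Metric.ball (0 : Plane) 1
      · rw [Set.indicator_of_mem hm, h1]; simp
      · rw [Set.indicator_of_notMem hm]; simp
    · have hex : ∃ j ∈ Finset.range n, (2 : ℝ) ^ j * thm ((2 : ℝ) ^ j * (v 0 - 1)) ≠ 0 := by
        by_contra h
        push Not at h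
        exact hz (Finset.sum_eq_zero h)
      obtain ⟨j, hj, hj2⟩ := hex
      have hj3 : bet (-((2 : ℝ) ^ j * (v 0 - 1))) ≠ 0 := by
        intro h
        apply hj2
        unfold thm
        rw [h]; simp
      obtain ⟨h1, h2⟩ := bet_support _ hj3
      have hjn : (2 : ℝ) ^ j ≤ 2 ^ n :=
        pow_le_pow_right₀ (by norm_num) (Finset.mem_range.mp hj).le
      have hj1 : (1 : ℝ) ≤ 2 ^ j := one_le_pow₀ (by norm_num)
      set t : ℝ := v 0 - 1 with ht'
      have h3 : 1 / (16 * 2 ^ n) < -t := by
        rw [div_lt_iff₀ (by positivity)]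
        nlinarith
      have h4 : -t < 1 / 8 := by nlinarith
      have hm : v ∈ Metric.ball (0 : Plane) 1 := by
        rw [mem_ball_zero_iff]
        have hv0 : v 0 = 1 + t := by rw [ht']; ring
        have h5 : ‖v‖ ^ 2 < 1 := by
          rw [hvsq, hv0]
          nlinarith
        nlinarith [norm_nonneg v]
      rw [Set.indicator_of_mem hm]
      unfold KK
      rw [heq]

lemma ch_int_cont (q : ℝ → ℂ) (hq : Integrable q) : Continuous (fun y => ∫ a, q a * ch a y) := by
  apply continuous_of_dominated (bound := fun x => ‖q x‖)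
  · intro y
    exact (mul_ch_int q hq y).1
  · intro y
    refine Filter.Eventually.of_forall (fun x => ?_)
    rw [norm_mul, ch_norm, mul_one]
  · exact hq.norm
  · refine Filter.Eventually.of_forall (fun x => ?_)
    have : Continuous (fun y => ch x y) := by
      unfold ch
      fun_prop
    exact continuous_const.mul this

lemma kn_int (q : ℝ → ℝ) (hq : Integrable q) (n : ℕ) : Integrable (kn q n) := by
  unfold kn
  apply integrable_finsetSum
  intro j _
  apply Integrable.const_mul
  exact hq.comp_mul_left' (by positivity)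

lemma poisson_int (j : ℕ) : Integrable (fun y : ℝ => ((2 : ℝ) ^ j)⁻¹ * (1 + (y / 2 ^ j) ^ 2)⁻¹) ∧
    ∫ y : ℝ, ((2 : ℝ) ^ j)⁻¹ * (1 + (y / 2 ^ j) ^ 2)⁻¹ = Real.pi := by
  constructor
  · apply Integrable.const_mul
    exact integrable_inv_one_add_sq.comp_div (by positivity)
  · rw [integral_const_mul,
      Measure.integral_comp_div (fun x : ℝ => (1 + x ^ 2)⁻¹) ((2 : ℝ) ^ j),
      integral_univ_inv_one_add_sq, smul_eq_mul, abs_of_pos (by positivity)]
    field_simp

lemma ae_plane : ∀ᵐ x : Plane, x 0 ≠ 0 := by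
  have h1 : ∀ᵐ a : ℝ, a ≠ 0 := Measure.ae_ne volume 0
  have h2 : ∀ᵐ p : ℝ × ℝ, p.1 ≠ 0 := Measure.quasiMeasurePreserving_fst.ae h1
  exact mp_plane.quasiMeasurePreserving.ae h2

lemma strip_locInt : LocallyIntegrable strip volume := by
  apply (locallyIntegrable_const (1 : ℝ)).mono strip_meas.aestronglyMeasurable
  refine Filter.Eventually.of_forall fun x => ?_
  rw [Real.norm_eq_abs, abs_of_nonneg (strip_nonneg x), norm_one]
  exact strip_le_one x

/-- a narrow bump -/
noncomputable def cb (δ : ℝ) (hδ : 0 < δ) : ContDiffBump (0 : ℝ) :=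
  ⟨δ / 2, δ, by positivity, by linarith⟩

theorem result : ¬ ∃ A : ℝ≥0, ∀ (f : 𝓢(Plane, ℂ)) (φ : Plane → ℝ), (∀ x, 0 ≤ φ x) →
    LocallyIntegrable φ volume →
      ∫⁻ x, ‖discMultiplier f x‖ₑ ^ 2 * ENNReal.ofReal (φ x) ≤
        A * ∫⁻ x, ‖f x‖ₑ ^ 2 * rayMax φ x := by
  rintro ⟨A, hA⟩
  obtain ⟨C, hC, hTh⟩ := Th_bound
  have hm := mm_pos
  -- main inequality for each n
  have key : ∀ n : ℕ, (n * (mm / 2)) ^ 2 ≤ A * (4 * C ^ 2 * (n * Real.pi)) := by
    intro n
    set δ : ℝ := 1 / (4 * 2 ^ n) with hδdef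
    have h2n : (1 : ℝ) ≤ 2 ^ n := one_le_pow₀ (by norm_num)
    have hδ0 : 0 < δ := by positivity
    have hδ1 : δ ≤ 1 := by
      rw [hδdef, div_le_one (by positivity)]
      linarith
    have hδ2 : δ ^ 2 ≤ 1 / (16 * 2 ^ n) := by
      rw [hδdef, div_pow, one_pow]
      apply one_div_le_one_div_of_le (by positivity)
      nlinarith
    set B : ContDiffBump (0 : ℝ) := cb δ hδ0 with hB
    set c : ℝ → ℝ := fun b => B b with hc
    have hcz : ∀ b, δ ≤ |b| → c b = 0 := by
      intro b hb
      by_contra hne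
      have h1 : b ∈ Function.support B := hne
      rw [B.support_eq, mem_ball_zero_iff, Real.norm_eq_abs] at h1
      have h2 : B.rOut = δ := rfl
      linarith
    have hcs : ContDiff ℝ (⊤ : ℕ∞) c := B.contDiff
    have hcc : HasCompactSupport c := B.hasCompactSupport
    have hci : Integrable c := hcs.continuous.integrable_of_hasCompactSupport hcc
    set KS : 𝓢(Plane, ℂ) := (KK_cs n c (fun b hb => hcz b (hδ1.trans hb))).toSchwartzMap
      (KK_smooth n c hcs) with hKS
    have hKSf : (KS : Plane → ℂ) = KK n c := rfl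
    set f : 𝓢(Plane, ℂ) := 𝓕⁻ KS with hf
    have hFf : 𝓕 (f : Plane → ℂ) = KK n c := by
      rw [← SchwartzMap.fourier_coe, hf, FourierTransform.fourier_fourierInv_eq, hKSf]
    -- one dimensional pieces
    set U : ℝ → ℂ := fun y => ∫ a, (kn th n (a - 1) : ℂ) * ch a y with hU
    set Um : ℝ → ℂ := fun y => ∫ a, (kn thm n (a - 1) : ℂ) * ch a y with hUm
    set V : ℝ → ℂ := fun y => ∫ b, (c b : ℂ) * ch b y with hV
    have hfx : ∀ x : Plane, f x = U (x 0) * V (x 1) := by
      intro x
      rw [hf, SchwartzMap.fourierInv_coe, hKSf]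
      exact fourierInv_plane (fun a => (kn th n (a - 1) : ℂ)) (fun b => (c b : ℂ)) x
    have hdx : ∀ x : Plane, discMultiplier f x = Um (x 0) * V (x 1) := by
      intro x
      unfold discMultiplier
      rw [hFf]
      have : (Metric.ball (0 : Plane) 1).indicator (KK n c) =
          fun v : Plane => (kn thm n (v 0 - 1) : ℂ) * (c (v 1) : ℂ) := by
        ext v
        exact disc_KK n c δ hδ0 hδ2 hcz v
      rw [this]
      exact fourierInv_plane (fun a => (kn thm n (a - 1) : ℂ)) (fun b => (c b : ℂ)) x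
    have hUn : ∀ y, ‖U y‖ = ‖∑ j ∈ Finset.range n, Th (y / 2 ^ j)‖ := by
      intro y
      rw [hU]
      simp only
      rw [shift_int (fun t => (kn th n t : ℂ)) y, norm_mul, ch_norm, one_mul,
        kn_fourier th th_int n y]
      rfl
    have hUmn : ∀ y, ‖Um y‖ = ‖∑ j ∈ Finset.range n, Thm (y / 2 ^ j)‖ := by
      intro y
      rw [hUm]
      simp only
      rw [shift_int (fun t => (kn thm n t : ℂ)) y, norm_mul, ch_norm, one_mul,
        kn_fourier thm thm_int n y]
      rfl
    have hUc : Continuous U := by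
      have := ch_int_cont (fun a => (kn th n (a - 1) : ℂ))
        (((kn_int th th_int n).comp_sub_right 1).ofReal)
      exact this
    have hUmc : Continuous Um := by
      have := ch_int_cont (fun a => (kn thm n (a - 1) : ℂ))
        (((kn_int thm thm_int n).comp_sub_right 1).ofReal)
      exact this
    have hVc : Continuous V := by
      have := ch_int_cont (fun a => (c a : ℂ)) hci.ofReal
      exact this
    -- the second factor
    set V0 : ℝ≥0∞ := ∫⁻ b, ‖V b‖ₑ ^ 2 with hV0
    have hVne0 : V0 ≠ 0 := by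
      intro h0
      rw [hV0, lintegral_eq_zero_iff (by fun_prop)] at h0
      have h1 : V =ᵐ[volume] fun _ => 0 := by
        filter_upwards [h0] with b hb
        simpa using hb
      have h2 : V = fun _ => 0 := (hVc.ae_eq_iff_eq volume continuous_const).mp h1
      have h3 : V 0 = ((∫ b, c b : ℝ) : ℂ) := by
        rw [hV, ← integral_complex_ofReal]
        simp only
        congr 1
        ext b
        have : ch b 0 = 1 := by simp [ch]
        rw [this, mul_one]
      have h4 : (0 : ℝ) < ∫ b, c b := B.integral_pos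
      rw [h2] at h3
      have h3' : (0 : ℂ) = ((∫ b, c b : ℝ) : ℂ) := h3
      have h5 : (∫ b, c b : ℝ) = 0 := by exact_mod_cast h3'.symm
      linarith
    have hVnetop : V0 ≠ ⊤ := by
      have h1 : HasCompactSupport (fun t => (c t : ℂ)) := hcc.comp_left (g := Complex.ofReal) rfl
      have h2 : ContDiff ℝ (⊤ : ℕ∞) (fun t => (c t : ℂ)) := Complex.ofRealCLM.contDiff.comp hcs
      have h3 : V = (𝓕⁻ (h1.toSchwartzMap h2) : 𝓢(ℝ, ℂ)) := by
        ext z
        rw [SchwartzMap.fourierInv_coe, fourierInv_real]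
        rfl
      have h4 : MemLp V 2 := by
        rw [h3]
        exact SchwartzMap.memLp _ 2 _
      have h5 := h4.eLpNorm_lt_top
      rw [eLpNorm_eq_lintegral_rpow_enorm_toReal (by norm_num) (by norm_num)] at h5
      have h6 : ∫⁻ b, ‖V b‖ₑ ^ (2 : ℝ≥0∞).toReal < ⊤ := by
        by_contra h
        rw [not_lt, top_le_iff] at h
        rw [h] at h5
        norm_num at h5
      simp only [ENNReal.toReal_ofNat, ENNReal.rpow_ofNat] at h6
      exact h6.ne
    -- apply the inequality
    have hin := hA f strip strip_nonneg strip_locInt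
    -- left side
    have hL : ENNReal.ofReal ((n * (mm / 2)) ^ 2) * V0 ≤
        ∫⁻ x, ‖discMultiplier f x‖ₑ ^ 2 * ENNReal.ofReal (strip x) := by
      have h1 : ∀ x : Plane, ‖discMultiplier f x‖ₑ ^ 2 * ENNReal.ofReal (strip x) =
          (‖Um (x 0)‖ₑ ^ 2 * ENNReal.ofReal ((Set.Icc (0 : ℝ) 1).indicator (fun _ => 1) (x 0))) *
            ‖V (x 1)‖ₑ ^ 2 := by
        intro x
        rw [hdx, enorm_mul, mul_pow, strip]
        ring
      simp_rw [h1]
      rw [lint_plane (fun a => ‖Um a‖ₑ ^ 2 * ENNReal.ofReal ((Set.Icc (0 : ℝ) 1).indicator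
        (fun _ => 1) a)) (fun b => ‖V b‖ₑ ^ 2)]
      · gcongr
        calc ENNReal.ofReal ((n * (mm / 2)) ^ 2)
            = ∫⁻ a, (Set.Icc (0 : ℝ) 1).indicator
                (fun _ => ENNReal.ofReal ((n * (mm / 2)) ^ 2)) a := by
              rw [lintegral_indicator_const measurableSet_Icc]
              simp
          _ ≤ _ := by
              apply lintegral_mono
              intro a
              by_cases ha : a ∈ Set.Icc (0 : ℝ) 1
              · simp only [Set.indicator_of_mem ha, ENNReal.ofReal_one, mul_one]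
                rw [← ofReal_norm, ← ENNReal.ofReal_pow (norm_nonneg _)]
                apply ENNReal.ofReal_le_ofReal
                apply pow_le_pow_left₀ (by positivity)
                rw [hUmn]
                have h2 : (∑ j ∈ Finset.range n, Thm (a / 2 ^ j)).re ≤ -(n * (mm / 2)) := by
                  rw [Complex.re_sum]
                  calc ∑ j ∈ Finset.range n, (Thm (a / 2 ^ j)).re
                      ≤ ∑ j ∈ Finset.range n, -(mm / 2) := by
                        apply Finset.sum_le_sum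
                        intro j _
                        apply Thm_re
                        rw [abs_div, abs_of_nonneg ha.1, abs_of_pos (by positivity)]
                        rw [div_le_one (by positivity)]
                        exact ha.2.trans (one_le_pow₀ (by norm_num))
                    _ = -(n * (mm / 2)) := by
                        rw [Finset.sum_const, Finset.card_range, nsmul_eq_mul]
                        ring
                have h3 := Complex.abs_re_le_norm (∑ j ∈ Finset.range n, Thm (a / 2 ^ j))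
                have h4 := neg_abs_le (∑ j ∈ Finset.range n, Thm (a / 2 ^ j)).re
                linarith
              · simp only [Set.indicator_of_notMem ha]
                exact bot_le
      · have : Measurable (fun a : ℝ => (Set.Icc (0 : ℝ) 1).indicator (fun _ => (1 : ℝ)) a) :=
          measurable_const.indicator measurableSet_Icc
        have h5 := hUmc.measurable
        fun_prop
      · have h5 := hVc.measurable
        fun_prop
    -- right side
    have hR : ∫⁻ x, ‖f x‖ₑ ^ 2 * rayMax strip x ≤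
        ENNReal.ofReal (4 * C ^ 2 * (n * Real.pi)) * V0 := by
      calc ∫⁻ x, ‖f x‖ₑ ^ 2 * rayMax strip x
          ≤ ∫⁻ x : Plane, (‖U (x 0)‖ₑ ^ 2 * ENNReal.ofReal (4 / |x 0|)) * ‖V (x 1)‖ₑ ^ 2 := by
            apply lintegral_mono_ae
            filter_upwards [ae_plane] with x hx
            rw [hfx, enorm_mul, mul_pow]
            calc ‖U (x 0)‖ₑ ^ 2 * ‖V (x 1)‖ₑ ^ 2 * rayMax strip x
                ≤ ‖U (x 0)‖ₑ ^ 2 * ‖V (x 1)‖ₑ ^ 2 * ENNReal.ofReal (4 / |x 0|) := by
                  gcongr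
                  exact rayMax_strip x hx
              _ = _ := by ring
        _ = (∫⁻ a, ‖U a‖ₑ ^ 2 * ENNReal.ofReal (4 / |a|)) * V0 := by
            rw [lint_plane (fun a => ‖U a‖ₑ ^ 2 * ENNReal.ofReal (4 / |a|))
              (fun b => ‖V b‖ₑ ^ 2)]
            · have h5 := hUc.measurable
              fun_prop
            · have h5 := hVc.measurable
              fun_prop
        _ ≤ ENNReal.ofReal (4 * C ^ 2 * (n * Real.pi)) * V0 := by
            gcongr
            have hgi : Integrable (fun y : ℝ => 4 * C ^ 2 * ∑ j ∈ Finset.range n,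
                ((2 : ℝ) ^ j)⁻¹ * (1 + (y / 2 ^ j) ^ 2)⁻¹) := by
              apply Integrable.const_mul
              apply integrable_finsetSum
              intro j _
              exact (poisson_int j).1
            have hgint : ∫ y : ℝ, (4 * C ^ 2 * ∑ j ∈ Finset.range n,
                ((2 : ℝ) ^ j)⁻¹ * (1 + (y / 2 ^ j) ^ 2)⁻¹) = 4 * C ^ 2 * (n * Real.pi) := by
              rw [integral_const_mul, integral_finsetSum _ (fun j _ => (poisson_int j).1)]
              rw [Finset.sum_congr rfl (fun j _ => (poisson_int j).2)]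
              rw [Finset.sum_const, Finset.card_range, nsmul_eq_mul]
            rw [← hgint, ofReal_integral_eq_lintegral_ofReal hgi
              (Filter.Eventually.of_forall fun y => by positivity)]
            apply lintegral_mono_ae
            filter_upwards [Measure.ae_ne volume (0 : ℝ)] with y hy
            have hya : 0 < |y| := abs_pos.mpr hy
            rw [← ofReal_norm, ← ENNReal.ofReal_pow (norm_nonneg _),
              ← ENNReal.ofReal_mul (by positivity)]
            apply ENNReal.ofReal_le_ofReal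
            set S : ℝ := ∑ j ∈ Finset.range n,
              (|y / 2 ^ j| / ((1 + |y / 2 ^ j|) * (2 + |y / 2 ^ j|))) with hS
            have hS0 : 0 ≤ S := Finset.sum_nonneg (fun j _ => by positivity)
            have hS1 : S ≤ 1 := telesc n y
            have hUS : ‖U y‖ ≤ C * S := by
              rw [hUn, hS, Finset.mul_sum]
              exact (norm_sum_le _ _).trans (Finset.sum_le_sum fun j _ => hTh _)
            have hUsq : ‖U y‖ ^ 2 ≤ C ^ 2 * S := by
              calc ‖U y‖ ^ 2 ≤ (C * S) ^ 2 := by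
                    apply pow_le_pow_left₀ (norm_nonneg _) hUS
                _ = C ^ 2 * (S * S) := by ring
                _ ≤ C ^ 2 * (S * 1) := by gcongr
                _ = C ^ 2 * S := by ring
            have hS4 : S / |y| ≤ ∑ j ∈ Finset.range n,
                ((2 : ℝ) ^ j)⁻¹ * (1 + (y / 2 ^ j) ^ 2)⁻¹ := by
              rw [hS, Finset.sum_div]
              apply Finset.sum_le_sum
              intro j _
              have h2j : (0 : ℝ) < 2 ^ j := by positivity
              have e1 : |y / 2 ^ j| = |y| / 2 ^ j := by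
                rw [abs_div, abs_of_pos h2j]
              have e2 : |y / 2 ^ j| / ((1 + |y / 2 ^ j|) * (2 + |y / 2 ^ j|)) / |y| =
                  ((2 : ℝ) ^ j)⁻¹ * ((1 + |y / 2 ^ j|) * (2 + |y / 2 ^ j|))⁻¹ := by
                have h8 : (1 + |y / 2 ^ j|) * (2 + |y / 2 ^ j|) ≠ 0 := by positivity
                field_simp
                rw [e1]
                field_simp
              rw [e2]
              gcongr
              have h9 := sq_abs (y / 2 ^ j)
              have h10 := abs_nonneg (y / 2 ^ j)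
              nlinarith
            calc ‖U y‖ ^ 2 * (4 / |y|) ≤ (C ^ 2 * S) * (4 / |y|) := by gcongr
              _ = 4 * C ^ 2 * (S / |y|) := by ring
              _ ≤ _ := by gcongr
    have hfin : ENNReal.ofReal ((n * (mm / 2)) ^ 2) * V0 ≤
        (A * ENNReal.ofReal (4 * C ^ 2 * (n * Real.pi))) * V0 := by
      calc _ ≤ _ := hL
        _ ≤ _ := hin
        _ ≤ A * (ENNReal.ofReal (4 * C ^ 2 * (n * Real.pi)) * V0) := by gcongr
        _ = _ := by ring
    have hfin2 := (ENNReal.mul_le_mul_iff_left hVne0 hVnetop).mp hfin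
    rw [← ENNReal.ofReal_coe_nnreal, ← ENNReal.ofReal_mul (by positivity)] at hfin2
    rwa [ENNReal.ofReal_le_ofReal_iff (by positivity)] at hfin2
  obtain ⟨n, hn⟩ := exists_nat_gt ((A : ℝ) * (4 * C ^ 2 * Real.pi) / (mm / 2) ^ 2)
  have h1 := key (n + 1)
  have h2 : (A : ℝ) * (4 * C ^ 2 * Real.pi) < n * (mm / 2) ^ 2 := by
    rwa [div_lt_iff₀ (by positivity)] at hn
  push_cast at h1
  have h3 : 0 < (mm / 2) ^ 2 := by positivity
  have h4 : ((n : ℝ) + 1) * (((n : ℝ) + 1) * (mm / 2) ^ 2) ≤
      ((n : ℝ) + 1) * ((A : ℝ) * (4 * C ^ 2 * Real.pi)) := by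
    nlinarith
  have h5 := le_of_mul_le_mul_left h4 (by positivity)
  nlinarith

end Pool.Agent.Results.MP_8ec070_an.DisproofQ2
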